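import Pool.Agent.H15.FamLink

/-!
S5 (n(k,k+2) = 3k+2), part T5: the contraction of one element, and of one element of a series pair.
Statements of the skeleton of helper30.
-/

set_option linter.unusedSectionVars false

open Module Submodule H15

namespace Pool.Agent.H7.DV

variable {ι : Type*} [Fintype ι] {E : Type*} [AddCommGroup E] [Module ℝ E]
  [FiniteDimensional ℝ E] {v : ι → E} {m : ℕ}

private theorem sp_con (p : ι) (P : Set {i : ι // i ≠ p}) :
    sp (fun i : {i : ι // i ≠ p} => (span ℝ {v p}).mkQ (v i)) P =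
      (sp v (Subtype.val '' P)).map (span ℝ {v p}).mkQ := by
  unfold sp
  rw [Submodule.map_span, ← Set.image_comp, ← Set.image_comp]
  rfl

private theorem finrank_comap {F : Submodule ℝ E} (G : Submodule ℝ (E ⧸ F)) :
    finrank ℝ (G.comap F.mkQ) = finrank ℝ G + finrank ℝ F := by
  have h1 := LinearMap.finrank_range_add_finrank_ker (F.mkQ.domRestrict (G.comap F.mkQ))
  have h2 : LinearMap.range (F.mkQ.domRestrict (G.comap F.mkQ)) = G := by
    rw [LinearMap.range_domRestrict, Submodule.map_comap_eq_of_surjective (Submodule.mkQ_surjective F)]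
  have hle : F ≤ G.comap F.mkQ := by
    intro x hx
    rw [Submodule.mem_comap]
    have : F.mkQ x = 0 := by
      rw [← LinearMap.mem_ker, Submodule.ker_mkQ]
      exact hx
    rw [this]
    exact zero_mem _
  have h3 : finrank ℝ (LinearMap.ker (F.mkQ.domRestrict (G.comap F.mkQ))) = finrank ℝ F := by
    have h4 : LinearMap.ker (F.mkQ.domRestrict (G.comap F.mkQ)) = F.comap (G.comap F.mkQ).subtype := by
      ext x
      rw [LinearMap.mem_ker, LinearMap.domRestrict_apply, ← LinearMap.mem_ker, Submodule.ker_mkQ]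
      rfl
    rw [h4]
    exact (Submodule.comapSubtypeEquivOfLe hle).finrank_eq
  rw [h2, h3] at h1
  exact h1.symm

private theorem finrank_sp_one {p : ι} (hp : v p ≠ 0) : finrank ℝ (span ℝ {v p}) = 1 :=
  finrank_span_singleton hp

private theorem core {p : ι} (P Q : Set {i : ι // i ≠ p})
    (h : finrank ℝ (LL v (insert p (Subtype.val '' P)) (Subtype.val '' Q)) ≤ m) :
    finrank ℝ (LL (fun i : {i : ι // i ≠ p} => (span ℝ {v p}).mkQ (v i)) P Q) ≤ m := by
  refine le_trans ?_ h
  have h1 : LL (fun i : {i : ι // i ≠ p} => (span ℝ {v p}).mkQ (v i)) P Q ≤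
      (LL v (insert p (Subtype.val '' P)) (Subtype.val '' Q)).map (span ℝ {v p}).mkQ := by
    rintro z ⟨hz1, hz2⟩
    rw [sp_con] at hz1 hz2
    obtain ⟨x, hx, hxz⟩ := hz1
    obtain ⟨y, hy, hyz⟩ := hz2
    refine ⟨y, ⟨?_, hy⟩, hyz⟩
    have h2 : y - x ∈ span ℝ {v p} := by
      rw [← Submodule.ker_mkQ (span ℝ {v p}), LinearMap.mem_ker, map_sub, sub_eq_zero]
      exact hyz.trans hxz.symm
    rw [SetLike.mem_coe, sp_insert]
    have h3 : y = (y - x) + x := by abel
    rw [h3]
    exact Submodule.add_mem_sup h2 hx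
  exact (Submodule.finrank_mono h1).trans (Submodule.finrank_map_le _ _)

/-- T5a: contraction of one element. -/
theorem bdd_contract [DecidableEq ι] (hb : Bdd v m) {p : ι} (hp : v p ≠ 0) :
    Bdd (fun i : {i : ι // i ≠ p} => (span ℝ {v p}).mkQ (v i)) m := by
  classical
  intro P Q ⟨c, hc0, hc1, hc2⟩
  have h1 : ∑ i : {i : ι // i ≠ p}, c i • v i ∈ span ℝ {v p} := by
    rw [← Submodule.ker_mkQ (span ℝ {v p}), LinearMap.mem_ker, map_sum, ← hc0]
    refine Finset.sum_congr rfl fun i _ => ?_
    rw [map_smul]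
  obtain ⟨a, ha⟩ := Submodule.mem_span_singleton.1 h1
  -- the lift
  let c' : ι → ℝ := fun i => if h : i ≠ p then c ⟨i, h⟩ else -a
  have hcp : c' p = -a := by simp [c']
  have hci : ∀ i : {i : ι // i ≠ p}, c' i = c i := by
    intro i
    have : (i : ι) ≠ p := i.2
    simp [c', this]
  have hsum : ∑ i, c' i • v i = 0 := by
    rw [← Finset.sum_erase_add _ _ (Finset.mem_univ p), hcp]
    have h2 : ∑ i ∈ Finset.univ.erase p, c' i • v i = ∑ i : {i : ι // i ≠ p}, c i • v i := by
      rw [Finset.sum_subtype (Finset.univ.erase p) (p := fun i => i ≠ p) (by simp)]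
      exact Finset.sum_congr rfl fun i _ => by rw [hci]
    rw [h2, ← ha, neg_smul, add_neg_cancel]
  have hpos : ∀ i, i ≠ p → (0 < c' i ↔ i ∈ Subtype.val '' P) := by
    intro i hi
    rw [hci ⟨i, hi⟩, hc1]
    constructor
    · intro h; exact ⟨_, h, rfl⟩
    · rintro ⟨j, hj, rfl⟩; exact hj
  have hneg : ∀ i, i ≠ p → (c' i < 0 ↔ i ∈ Subtype.val '' Q) := by
    intro i hi
    rw [hci ⟨i, hi⟩, hc2]
    constructor
    · intro h; exact ⟨_, h, rfl⟩
    · rintro ⟨j, hj, rfl⟩; exact hj
  have hpP : p ∉ Subtype.val '' P := by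
    rintro ⟨j, -, hj⟩
    exact j.2 hj
  have hpQ : p ∉ Subtype.val '' Q := by
    rintro ⟨j, -, hj⟩
    exact j.2 hj
  rcases lt_trichotomy a 0 with h | h | h
  · apply core
    apply hb
    refine ⟨c', hsum, fun i => ?_, fun i => ?_⟩
    · by_cases hi : i = p
      · subst hi
        rw [hcp]
        constructor
        · intro _; exact Set.mem_insert _ _
        · intro _; linarith
      · rw [hpos i hi, Set.mem_insert_iff]
        exact ⟨fun h => Or.inr h, fun h => h.resolve_left hi⟩
    · by_cases hi : i = p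
      · subst hi
        rw [hcp]
        constructor
        · intro h'; linarith
        · intro h'; exact absurd h' hpQ
      · exact hneg i hi
  · have hsv : SVec v (Subtype.val '' P) (Subtype.val '' Q) := by
      refine ⟨c', hsum, fun i => ?_, fun i => ?_⟩
      · by_cases hi : i = p
        · subst hi
          rw [hcp, h]
          constructor
          · intro h'; simp at h'
          · intro h'; exact absurd h' hpP
        · exact hpos i hi
      · by_cases hi : i = p
        · subst hi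
          rw [hcp, h]
          constructor
          · intro h'; simp at h'
          · intro h'; exact absurd h' hpQ
        · exact hneg i hi
    by_cases hmem : v p ∈ sp v (Subtype.val '' P ∪ Subtype.val '' Q)
    · apply core
      exact hb _ _ (hsv.add hpP hpQ hmem)
    · refine le_trans ?_ (hb _ _ hsv)
      have h1 : LL (fun i : {i : ι // i ≠ p} => (span ℝ {v p}).mkQ (v i)) P Q ≤
          (LL v (Subtype.val '' P) (Subtype.val '' Q)).map (span ℝ {v p}).mkQ := by
        rintro z ⟨hz1, hz2⟩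
        rw [sp_con] at hz1 hz2
        obtain ⟨x, hx, hxz⟩ := hz1
        obtain ⟨y, hy, hyz⟩ := hz2
        refine ⟨y, ⟨?_, hy⟩, hyz⟩
        have h2 : y - x ∈ span ℝ {v p} := by
          rw [← Submodule.ker_mkQ (span ℝ {v p}), LinearMap.mem_ker, map_sub, sub_eq_zero]
          exact hyz.trans hxz.symm
        obtain ⟨t, ht⟩ := Submodule.mem_span_singleton.1 h2
        have h3 : y - x ∈ sp v (Subtype.val '' P ∪ Subtype.val '' Q) :=
          Submodule.sub_mem _ (sp_mono Set.subset_union_right hy) (sp_mono Set.subset_union_left hx)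
        have h4 : t = 0 := by
          by_contra ht0
          rw [← ht] at h3
          exact hmem (((sp v (Subtype.val '' P ∪ Subtype.val '' Q)).smul_mem_iff ht0).1 h3)
        rw [h4, zero_smul] at ht
        have h5 : y = x := (sub_eq_zero.1 ht.symm)
        rw [h5]
        exact hx
      exact (Submodule.finrank_mono h1).trans (Submodule.finrank_map_le _ _)
  · rw [LL_comm]
    apply core
    apply hb
    refine ⟨fun i => - c' i, by simp [hsum], fun i => ?_, fun i => ?_⟩
    · by_cases hi : i = p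
      · subst hi
        show 0 < - c' i ↔ _
        rw [hcp]
        constructor
        · intro _; exact Set.mem_insert _ _
        · intro _; linarith
      · show 0 < - c' i ↔ _
        rw [neg_pos, hneg i hi, Set.mem_insert_iff]
        exact ⟨fun h => Or.inr h, fun h => h.resolve_left hi⟩
    · by_cases hi : i = p
      · subst hi
        show - c' i < 0 ↔ _
        rw [hcp]
        constructor
        · intro h'; linarith
        · intro h'; exact absurd h' hpP
      · show - c' i < 0 ↔ _
        rw [neg_lt_zero]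
        exact hpos i hi

private theorem mem_comap_iff {p : ι} (G : Submodule ℝ (E ⧸ span ℝ {v p})) (i : ι) :
    v i ∈ G.comap (span ℝ {v p}).mkQ ↔ (span ℝ {v p}).mkQ (v i) ∈ G := Iff.rfl

private theorem p_mem {p : ι} (G : Submodule ℝ (E ⧸ span ℝ {v p})) :
    v p ∈ G.comap (span ℝ {v p}).mkQ := by
  rw [Submodule.mem_comap]
  have : (span ℝ {v p}).mkQ (v p) = 0 := by
    rw [← LinearMap.mem_ker, Submodule.ker_mkQ]
    exact mem_span_singleton_self _
  rw [this]
  exact zero_mem _

/-- elements of the contraction in `G`: one less than in the preimage. -/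
private theorem ncard_con [DecidableEq ι] {p : ι} (G : Submodule ℝ (E ⧸ span ℝ {v p})) :
    {i : {i : ι // i ≠ p} | (span ℝ {v p}).mkQ (v i) ∈ G}.ncard + 1 =
      {i | v i ∈ G.comap (span ℝ {v p}).mkQ}.ncard := by
  classical
  have h1 : {i | v i ∈ G.comap (span ℝ {v p}).mkQ} =
      insert p (Subtype.val '' {i : {i : ι // i ≠ p} | (span ℝ {v p}).mkQ (v i) ∈ G}) := by
    ext i
    constructor
    · intro hi
      by_cases h : i = p
      · exact Or.inl h
      · exact Or.inr ⟨⟨i, h⟩, hi, rfl⟩
    · rintro (rfl | ⟨j, hj, rfl⟩)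
      · exact p_mem G
      · exact hj
  rw [h1, Set.ncard_insert_of_notMem, Set.ncard_image_of_injective _ Subtype.val_injective]
  rintro ⟨j, -, hj⟩
  exact j.2 hj

/-- T5b: the contraction of one element of a series pair. -/
theorem contract_core [DecidableEq ι] {k : ℕ} (hk : 4 ≤ k) (hD : finrank ℝ E = k + 3)
    (hN : Fintype.card ι = 3 * k + 2)
    (hnp : ∀ G : Submodule ℝ E, finrank ℝ G ≤ 1 → {i | v i ∈ G}.ncard ≤ 1)
    (h0 : ∀ i, v i ≠ 0)
    (hfc : ∀ G : Submodule ℝ E, finrank ℝ G ≤ k + 1 → {i | v i ∈ G}.ncard ≤ k + finrank ℝ G)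
    {p q : ι} (hpq : p ≠ q) (hcl : ∀ i, sp v ({i}ᶜ) = ⊤) (hser : sp v ({p, q}ᶜ) ≠ ⊤) :
    Cosimple (fun i : {i : ι // i ≠ p} => (span ℝ {v p}).mkQ (v i)) ∧
    (∀ i : {i : ι // i ≠ p}, (span ℝ {v p}).mkQ (v i) ≠ 0) ∧
    (∃ w0 : {i : ι // i ≠ p}, ∀ G : Submodule ℝ (E ⧸ span ℝ {v p}), finrank ℝ G ≤ 1 →
      {i : {i : ι // i ≠ p} | i ≠ w0 ∧ (span ℝ {v p}).mkQ (v i) ∈ G}.ncard ≤ 1) ∧
    (∀ G : Submodule ℝ (E ⧸ span ℝ {v p}), finrank ℝ G ≤ k →
      {i : {i : ι // i ≠ p} | (span ℝ {v p}).mkQ (v i) ∈ G}.ncard ≤ k + finrank ℝ G) ∧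
    (∀ G : Submodule ℝ (E ⧸ span ℝ {v p}), finrank ℝ G = k + 1 →
      {i : {i : ι // i ≠ p} | (span ℝ {v p}).mkQ (v i) ∈ G}.ncard ≤ 2 * k + 2) := by
  classical
  have hp1 : finrank ℝ (span ℝ {v p}) = 1 := finrank_sp_one (h0 p)
  -- deleting a pair
  have hcross : ∀ a b : ι, sp v ({a, b}ᶜ) ≠ ⊤ → a ≠ b ∧ v a ∉ sp v ({a, b}ᶜ) ∧
      v b ∉ sp v ({a, b}ᶜ) ∧ finrank ℝ (sp v ({a, b}ᶜ)) = k + 2 := by
    intro a b hab
    have hne : a ≠ b := by
      rintro rfl
      rw [Set.pair_eq_singleton] at hab
      exact hab (hcl a)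
    have h1 : insert a ({a, b}ᶜ : Set ι) = ({b}ᶜ : Set ι) := by
      ext i
      simp only [Set.mem_insert_iff, Set.mem_compl_iff, Set.mem_singleton_iff]
      constructor
      · rintro (rfl | h)
        · exact hne
        · exact fun h' => h (Or.inr h')
      · intro h
        by_cases hi : i = a
        · exact Or.inl hi
        · exact Or.inr (fun h' => h'.elim hi h)
    have h2 : insert b ({a, b}ᶜ : Set ι) = ({a}ᶜ : Set ι) := by
      ext i
      simp only [Set.mem_insert_iff, Set.mem_compl_iff, Set.mem_singleton_iff]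
      constructor
      · rintro (rfl | h)
        · exact hne.symm
        · exact fun h' => h (Or.inl h')
      · intro h
        by_cases hi : i = b
        · exact Or.inl hi
        · exact Or.inr (fun h' => h'.elim h hi)
    have ha : v a ∉ sp v ({a, b}ᶜ) := by
      intro hmem
      apply hab
      rw [eq_top_iff, ← hcl b, ← h1, sp_insert]
      exact sup_le ((span_singleton_le_iff_mem _ _).2 hmem) le_rfl
    have hb : v b ∉ sp v ({a, b}ᶜ) := by
      intro hmem
      apply hab
      rw [eq_top_iff, ← hcl a, ← h2, sp_insert]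
      exact sup_le ((span_singleton_le_iff_mem _ _).2 hmem) le_rfl
    refine ⟨hne, ha, hb, ?_⟩
    have h3 := finrank_sp_insert ha
    rw [h1, hcl b, finrank_top, hD] at h3
    omega
  obtain ⟨-, hpH, hqH, hH⟩ := hcross p q hser
  -- intersection of two different hyperplanes
  have hinter : ∀ G H : Submodule ℝ E, finrank ℝ G = k + 2 → finrank ℝ H = k + 2 → G ≠ H →
      finrank ℝ ↥(G ⊓ H) = k + 1 := by
    intro G H hG hH hne
    have h1 := Submodule.finrank_sup_add_finrank_inf_eq G H
    have h2 : finrank ℝ ↥(G ⊔ H) ≤ finrank ℝ E := Submodule.finrank_le _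
    have h3 : G < G ⊔ H := by
      refine lt_of_le_of_ne le_sup_left fun heq => hne ?_
      have h4 : H ≤ G := by rw [heq]; exact le_sup_right
      exact (Submodule.eq_of_le_of_finrank_eq h4 (by rw [hG, hH])).symm
    have h5 := Submodule.finrank_lt_finrank_of_lt h3
    omega
  -- no second series pair
  have hno : ∀ a b : ι, a ≠ p → b ≠ p → sp v ({a, b}ᶜ) = ⊤ := by
    intro a b hap hbp
    by_contra hab
    obtain ⟨hne, ha, hb, hH'⟩ := hcross a b hab
    have hdiff : sp v ({p, q}ᶜ) ≠ sp v ({a, b}ᶜ) := by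
      intro heq
      rw [heq] at hpH
      exact hpH (mem_sp (by
        simp only [Set.mem_compl_iff, Set.mem_insert_iff, Set.mem_singleton_iff]
        rintro (h | h)
        · exact hap h.symm
        · exact hbp h.symm))
    have h1 := hfc _ (hinter _ _ hH hH' hdiff).le
    rw [hinter _ _ hH hH' hdiff] at h1
    have h2 : ({p, q, a, b} : Set ι)ᶜ ⊆ {i | v i ∈ sp v ({p, q}ᶜ) ⊓ sp v ({a, b}ᶜ)} := by
      intro i hi
      simp only [Set.mem_compl_iff, Set.mem_insert_iff, Set.mem_singleton_iff, not_or] at hi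
      exact ⟨mem_sp (by simp [hi.1, hi.2.1]), mem_sp (by simp [hi.2.2.1, hi.2.2.2])⟩
    have h3 := Set.ncard_le_ncard h2 (Set.toFinite _)
    have h4 := Set.ncard_add_ncard_compl ({p, q, a, b} : Set ι)
    rw [Nat.card_eq_fintype_card, hN] at h4
    have h5 : ({p, q, a, b} : Set ι).ncard ≤ 4 := by
      refine (Set.ncard_insert_le _ _).trans ?_
      have h6 := Set.ncard_insert_le q ({a, b} : Set ι)
      have h7 := Set.ncard_insert_le a ({b} : Set ι)
      rw [Set.ncard_singleton] at h7
      omega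
    omega
  refine ⟨?_, ?_, ⟨⟨q, hpq.symm⟩, ?_⟩, ?_, ?_⟩
  · intro i j
    rw [sp_con, eq_top_iff]
    have h1 := hno i j i.2 j.2
    have h2 : ({(i : ι), (j : ι)}ᶜ : Set ι) ⊆ insert p (Subtype.val '' ({i, j}ᶜ : Set {i : ι // i ≠ p})) := by
      intro a ha
      by_cases hap : a = p
      · exact Or.inl hap
      · refine Or.inr ⟨⟨a, hap⟩, ?_, rfl⟩
        simp only [Set.mem_compl_iff, Set.mem_insert_iff, Set.mem_singleton_iff, not_or] at ha ⊢
        exact ⟨fun h => ha.1 (congrArg Subtype.val h), fun h => ha.2 (congrArg Subtype.val h)⟩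
    have h3 : (⊤ : Submodule ℝ E) ≤ span ℝ {v p} ⊔ sp v (Subtype.val '' ({i, j}ᶜ : Set {i : ι // i ≠ p})) := by
      rw [← h1, ← sp_insert]
      exact sp_mono h2
    have h4 := Submodule.map_mono (f := (span ℝ {v p}).mkQ) h3
    rw [Submodule.map_sup, Submodule.map_top, Submodule.range_mkQ] at h4
    refine h4.trans (sup_le ?_ le_rfl)
    rw [Submodule.map_le_iff_le_comap]
    intro x hx
    rw [Submodule.mem_comap]
    have : (span ℝ {v p}).mkQ x = 0 := by
      rw [← LinearMap.mem_ker, Submodule.ker_mkQ]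
      exact hx
    rw [this]
    exact zero_mem _
  · intro i hi
    have h1 := hnp (span ℝ {v p}) hp1.le
    rw [Set.ncard_le_one (Set.toFinite _)] at h1
    rw [← LinearMap.mem_ker, Submodule.ker_mkQ] at hi
    exact i.2 (h1 i hi p (mem_span_singleton_self _))
  · intro G hG
    rw [Set.ncard_le_one (Set.toFinite _)]
    intro i hi j hj
    by_contra hij
    have hiH : v i ∈ sp v ({p, q}ᶜ) := mem_sp (by
      simp only [Set.mem_compl_iff, Set.mem_insert_iff, Set.mem_singleton_iff, not_or]
      exact ⟨i.2, fun h => hi.1 (Subtype.ext h)⟩)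
    have hjH : v j ∈ sp v ({p, q}ᶜ) := mem_sp (by
      simp only [Set.mem_compl_iff, Set.mem_insert_iff, Set.mem_singleton_iff, not_or]
      exact ⟨j.2, fun h => hj.1 (Subtype.ext h)⟩)
    -- the plane
    have h1 : v j ∉ span ℝ {v i} := by
      intro h
      have h2 := hnp (span ℝ {v i}) (finrank_sp_one (h0 i)).le
      rw [Set.ncard_le_one (Set.toFinite _)] at h2
      exact hij (Subtype.ext (h2 i (mem_span_singleton_self _) j h))
    have h2 := finrank_sup_singleton h1
    rw [finrank_sp_one (h0 i)] at h2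
    have h3 : span ℝ {v j} ⊔ span ℝ {v i} ≤ G.comap (span ℝ {v p}).mkQ := by
      refine sup_le ?_ ?_
      · rw [span_singleton_le_iff_mem]
        exact hj.2
      · rw [span_singleton_le_iff_mem]
        exact hi.2
    have h4 := finrank_comap G
    rw [hp1] at h4
    have h5 : span ℝ {v j} ⊔ span ℝ {v i} = G.comap (span ℝ {v p}).mkQ :=
      Submodule.eq_of_le_of_finrank_le h3 (by omega)
    have h6 : span ℝ {v j} ⊔ span ℝ {v i} ≤ sp v ({p, q}ᶜ) := by
      refine sup_le ?_ ?_
      · rw [span_singleton_le_iff_mem]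
        exact hjH
      · rw [span_singleton_le_iff_mem]
        exact hiH
    rw [h5] at h6
    exact hpH (h6 (p_mem G))
  · intro G hG
    have h1 := finrank_comap G
    rw [hp1] at h1
    have h2 := hfc (G.comap (span ℝ {v p}).mkQ) (by omega)
    have h3 := ncard_con (v := v) G
    omega
  · intro G hG
    have h1 := finrank_comap G
    rw [hp1, hG] at h1
    have hdiff : G.comap (span ℝ {v p}).mkQ ≠ sp v ({p, q}ᶜ) := by
      intro heq
      rw [← heq] at hpH
      exact hpH (p_mem G)
    have h2 := hinter _ _ (by omega) hH hdiff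
    have h3 := hfc _ h2.le
    rw [h2] at h3
    have h4 : {i | v i ∈ G.comap (span ℝ {v p}).mkQ} ⊆
        insert p (insert q {i | v i ∈ G.comap (span ℝ {v p}).mkQ ⊓ sp v ({p, q}ᶜ)}) := by
      intro i hi
      by_cases h5 : i = p
      · exact Or.inl h5
      by_cases h6 : i = q
      · exact Or.inr (Or.inl h6)
      · exact Or.inr (Or.inr ⟨hi, mem_sp (by simp [h5, h6])⟩)
    have h5 := Set.ncard_le_ncard h4 (Set.toFinite _)
    have h6 := Set.ncard_insert_le p (insert q {i | v i ∈ G.comap (span ℝ {v p}).mkQ ⊓ sp v ({p, q}ᶜ)})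
    have h7 := Set.ncard_insert_le q {i | v i ∈ G.comap (span ℝ {v p}).mkQ ⊓ sp v ({p, q}ᶜ)}
    have h8 := ncard_con (v := v) G
    omega

end Pool.Agent.H7.DV
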